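import Mathlib

/-!
# The Maynard-Tao sieve in an abstract setting (helper542): statements

`ι` is a finite set of primes `x` of length `ℓ x` and density `b x`.  Subsets `a` of `ι` are the
squarefree divisors, of length `∑ x ∈ a, ℓ x` and density `∏ x ∈ a, b x`.  An assignment
`r : ι → Option (Fin k)` is a `k`-tuple of disjoint subsets.
-/

set_option autoImplicit false

namespace Pool.Agent.H542.LM

/-- The total length of the `x` with `r x ≠ none`. -/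
def tl {ι : Type} [Fintype ι] {k : ℕ} (ℓ : ι → ℕ) (r : ι → Option (Fin k)) : ℕ :=
  ∑ x, if r x = none then 0 else ℓ x

/-- The length of the `i`-th component. -/
def ln {ι : Type} [Fintype ι] {k : ℕ} (ℓ : ι → ℕ) (r : ι → Option (Fin k)) (i : Fin k) : ℕ :=
  ∑ x, if r x = some i then ℓ x else 0

/-- The function `N / (N + n)`. -/
noncomputable def gg (N : ℝ) (n : ℕ) : ℝ := N / (N + n)

/-- The function `N / (N + n)` for `n ≤ R`, and `0` for `n > R`. -/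
noncomputable def gt (N : ℝ) (R n : ℕ) : ℝ := if n ≤ R then N / (N + n) else 0

/-- The weights `(1 - tl / R)₊ ∏ N / (N + ln i)`. -/
noncomputable def yy {ι : Type} [Fintype ι] {k : ℕ} (N : ℝ) (R : ℕ) (ℓ : ι → ℕ)
    (r : ι → Option (Fin k)) : ℝ :=
  max 0 (1 - (tl ℓ r : ℝ) / R) * ∏ i, gg N (ln ℓ r i)

/-- The weights with the sign `(-1) ^ |supp r|`. -/
noncomputable def cc {ι : Type} [Fintype ι] {k : ℕ} (N : ℝ) (R : ℕ) (ℓ : ι → ℕ)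
    (r : ι → Option (Fin k)) : ℝ :=
  (∏ x, if r x = none then (1 : ℝ) else -1) * yy N R ℓ r

/-- Sums over the subsets of `ι`. -/
noncomputable def sm {ι : Type} [Fintype ι] (ℓ : ι → ℕ) (w : ι → ℝ) (φ : ℕ → ℝ) : ℝ :=
  ∑ a : Finset ι, (∏ x ∈ a, w x) * φ (∑ x ∈ a, ℓ x)

/-- The basic sum. -/
noncomputable def BB {ι : Type} [Fintype ι] (N : ℝ) (R : ℕ) (ℓ : ι → ℕ) (b : ι → ℝ) : ℝ :=
  sm ℓ b (fun n => gt N R n ^ 2)

/-- The data. -/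
structure Dt (ι : Type) [Fintype ι] (ℓ : ι → ℕ) (b : ι → ℝ) (ρ η : ℝ) (n₁ R : ℕ) : Prop where
  rho_pos : 0 < ρ
  rho_le : ρ ≤ 1
  len : ∀ x, 1 ≤ ℓ x
  pos : ∀ x, 0 < b x
  small : ∀ x, b x ≤ η
  sq : ∑ x, b x ^ 2 ≤ η
  prime : ∀ n : ℕ, (n : ℝ) * ∑ x ∈ Finset.univ.filter (fun x : ι => ℓ x = n), b x ≤ 1
  one : ∀ n : ℕ, ∑ a ∈ Finset.univ.filter (fun a : Finset ι => ∑ x ∈ a, ℓ x = n),
    ∏ x ∈ a, b x ≤ 1
  up : ∀ n : ℕ, n₁ ≤ n → ∑ a ∈ Finset.univ.filter (fun a : Finset ι => ∑ x ∈ a, ℓ x = n),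
    ∏ x ∈ a, b x ≤ ρ
  low : ∀ y : ℕ, y ≤ R → ρ * ((y : ℝ) + 1) ≤
    ∑ a ∈ Finset.univ.filter (fun a : Finset ι => ∑ x ∈ a, ℓ x ≤ y), ∏ x ∈ a, (b x / (1 - b x))

/-- **Task TENS.**  Products of quadratic forms, monotonicity.

Induction on `|ι|` (transport to `Fin n`, `Fin.consEquiv` / `Fintype.piFinset` over `Fin (n+1)`, or
`Finset.induction` with functions on a subset).  For fixed other coordinates `t'` the hypothesis is
used at one `x` with `u i = ∑ r', c (i, r') ∏ φ₁ (t', r')`; then the induction hypothesis is used for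
`c'' r' = ∑ i, φ₂ x t i * c (i, r')`, for every `t ∈ Ω₂ x`. -/
def S_tens : Prop :=
  ∀ (ι I α β : Type) [Fintype ι] [DecidableEq ι] [Fintype I]
    (Ω₁ : ι → Finset α) (Ω₂ : ι → Finset β) (p₁ : ι → α → ℝ) (p₂ : ι → β → ℝ)
    (φ₁ : ι → α → I → ℝ) (φ₂ : ι → β → I → ℝ),
    (∀ x, ∀ t ∈ Ω₁ x, 0 ≤ p₁ x t) → (∀ x, ∀ t ∈ Ω₂ x, 0 ≤ p₂ x t) →
    (∀ (x : ι) (u : I → ℝ), ∑ t ∈ Ω₁ x, p₁ x t * (∑ i, φ₁ x t i * u i) ^ 2 ≤
      ∑ t ∈ Ω₂ x, p₂ x t * (∑ i, φ₂ x t i * u i) ^ 2) →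
    ∀ c : (ι → I) → ℝ,
      ∑ t ∈ Fintype.piFinset Ω₁, (∏ x, p₁ x (t x)) *
        (∑ r : ι → I, c r * ∏ x, φ₁ x (t x) (r x)) ^ 2 ≤
      ∑ t ∈ Fintype.piFinset Ω₂, (∏ x, p₂ x (t x)) *
        (∑ r : ι → I, c r * ∏ x, φ₂ x (t x) (r x)) ^ 2

/-- **Task CMP.**  Comparison of weights.

`∏_{x ∈ a} (1 + e x) = ∑_{l ⊆ a} ∏_{x ∈ l} e x`; exchange the sums; for fixed `l` the `a ⊇ l` are
`a = l ∪ a'`, `a'` disjoint from `l`, `φ (ℓ a) ≤ φ (ℓ a')`; drop the disjointness. -/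
def S_cmp : Prop :=
  ∀ (ι : Type) [Fintype ι] [DecidableEq ι] (ℓ : ι → ℕ) (b e : ι → ℝ) (φ : ℕ → ℝ),
    (∀ x, 0 ≤ b x) → (∀ x, 0 ≤ e x) → Antitone φ → (∀ n, 0 ≤ φ n) →
    sm ℓ (fun x => b x * (1 + e x)) φ ≤ (∏ x, (1 + b x * e x)) * sm ℓ b φ

/-- **Task UPS.**  Upper bound for the sums over subsets.

Fiberwise over `n = ∑ x ∈ a, ℓ x`; the fibre is at most `1` for `n < n₁` and at most `ρ` for
`n ≥ n₁` (`Dt.one`, `Dt.up`), and `φ n ≤ φ 0`. -/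
def S_ups : Prop :=
  ∀ (ι : Type) [Fintype ι] [DecidableEq ι] (ℓ : ι → ℕ) (b : ι → ℝ) (ρ η : ℝ) (n₁ R : ℕ)
    (φ : ℕ → ℝ), Dt ι ℓ b ρ η n₁ R → Antitone φ → (∀ n, 0 ≤ φ n) → (∀ n, R < n → φ n = 0) →
    sm ℓ b φ ≤ n₁ * φ 0 + ρ * ∑ n ∈ Finset.range (R + 1), φ n

/-- **Task LOW.**  Lower bound for the sums over the subsets disjoint from `s`.

With `ν x = b x / (1 - b x)` and `F_s(y) = ∑_{a ∩ s = ∅, ℓ(a) ≤ y} ν(a)`, for `x ∉ s`: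
`F_s(y) = F_{s ∪ x}(y) + ν x F_{s ∪ x}(y - ℓ x) ≤ (1 + ν x) F_{s ∪ x}(y) = F_{s ∪ x}(y) / (1 - b x)`.
So `F_s(y) ≥ ∏_{x ∈ s} (1 - b x) F_∅(y) ≥ ρ ∏ (1 - b x) (y + 1)` for `y ≤ R` (`Dt.low`).  Then
summation by parts: `φ (ℓ a) = ∑_{y ≥ ℓ(a), y ≤ R} (φ y - φ (y + 1))`. -/
def S_low : Prop :=
  ∀ (ι : Type) [Fintype ι] [DecidableEq ι] (ℓ : ι → ℕ) (b : ι → ℝ) (ρ η : ℝ) (n₁ R : ℕ)
    (φ : ℕ → ℝ) (s : Finset ι), Dt ι ℓ b ρ η n₁ R → η ≤ 1 / 2 → Antitone φ → (∀ n, 0 ≤ φ n) →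
    (∀ n, R < n → φ n = 0) →
    ρ * (∏ x ∈ s, (1 - b x)) * ∑ n ∈ Finset.range (R + 1), φ n ≤
      ∑ a ∈ Finset.univ.filter (fun a : Finset ι => Disjoint a s),
        (∏ x ∈ a, (b x / (1 - b x))) * φ (∑ x ∈ a, ℓ x)

/-- The upper form: coefficients. -/
noncomputable def HH (k : ℕ) (b : ℝ) : Option (Fin k) → ℝ
  | none => 1 + 2 * b ^ 2
  | some _ => b * (1 + 2 * k * b)

/-- **Task UP.**  The upper bound for the diagonal sum.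

`∏ x, HH (s x) ≤ ∏ x (1 + 2 b x ^ 2) * ∏_{s x ≠ none} b x (1 + 2 k b x)`.  The map
`s ↦ (i ↦ {x | s x = some i})` is injective into the families of subsets, and the sum over all the
families is the `k`-th power of `sm ℓ (b (1 + 2 k b)) (gt ^ 2)` (`Finset.prod_univ_sum`).  `S_cmp`
with `e = 2 k b`.  The constant: `∏ (1 + 2 b²) ∏ (1 + 2 k b²) ^ k ≤ exp (4 k² η) ≤ 2`. -/
def S_up : Prop :=
  ∀ (ι : Type) [Fintype ι] [DecidableEq ι] (ℓ : ι → ℕ) (b : ι → ℝ) (ρ η N : ℝ) (n₁ R k : ℕ),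
    Dt ι ℓ b ρ η n₁ R → 1 ≤ k → 64 * (k : ℝ) ^ 4 * η ≤ 1 → 0 < N →
    ∑ s : ι → Option (Fin k), (∏ x, HH k (b x) (s x)) * ∏ i, gt N R (ln ℓ s i) ^ 2 ≤
      2 * BB N R ℓ b ^ k

/-- Task UP is to be proved from CMP. -/
def S_tup : Prop := S_cmp → S_up

/-- The coefficients for task DIS. -/
noncomputable def vv (k : ℕ) (m : Fin k) (b : ℝ) : Option (Fin k) → ℝ
  | none => 1
  | some j => if j = m then 0 else b * (1 - (2 * k + 2) * b)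

/-- **Task DIS.**  The lower bound for the diagonal sum over disjoint families.

The `s` with `s x ≠ some m` for all `x` are the families `(a_i)_{i ≠ m}` of disjoint subsets.  Since
`∏ (1 - t) ≥ 1 - ∑ t`, the sum is at least the sum over ALL families of subsets (disjoint or not) of
`∏_i b(a_i) gt(ℓ(a_i))² * (1 - [not disjoint] - [2 ∑ ℓ(a_i) > R] - ∑_i ∑_{x ∈ a_i} (2 k + 2) b x)`.
The first term is `B ^ (k - 1)`.  Second: for `i ≠ j` and `x`, the families with `x ∈ a_i ∩ a_j`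
contribute at most `b x ^ 2 B ^ (k - 1)` (remove `x`, `gt` is antitone), total at most
`k² η B ^ (k-1)`.  Fourth: the same with `b x`: at most `(k - 1) (2 k + 2) η B ^ (k - 1)`.  Third:
`[2 L > R] ≤ 2 L / R`, so at most `(2 / R) (k - 1) M B ^ (k - 2)` with
`M = ∑ a, b(a) ℓ(a) gt(ℓ(a))² ≤ N sm ℓ b gt ≤ N (n₁ + ρ S)`, `S = ∑_{n ≤ R} N / (N + n)` (UPS), and
`B ≥ ρ N / 8`: by CMP with `e x = b x / (1 - b x)` and LOW with `s = ∅`,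
`2 B ≥ ∑ a, ν(a) gt² ≥ ρ ∑_{n ≤ R} gt² ≥ ρ N / 4` (the `n ≤ N`).  So the third is at most
`(2 (k - 1) / R) * 8 (n₁ / ρ + S) ≤ 1 / 4` times `B ^ (k - 1)`. -/
def S_dis : Prop :=
  ∀ (ι : Type) [Fintype ι] [DecidableEq ι] (ℓ : ι → ℕ) (b : ι → ℝ) (ρ η N : ℝ) (n₁ R k : ℕ)
    (m : Fin k), Dt ι ℓ b ρ η n₁ R → 64 * (k : ℝ) ^ 4 * η ≤ 1 → 0 < N → N ≤ R →
    (n₁ : ℝ) / ρ + ∑ n ∈ Finset.range (R + 1), gg N n ≤ R / (64 * k) →
    1 / 2 * BB N R ℓ b ^ (k - 1) ≤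
      ∑ s ∈ Finset.univ.filter (fun s : ι → Option (Fin k) => 2 * tl ℓ s ≤ R),
        (∏ x, vv k m (b x) (s x)) * ∏ i ∈ Finset.univ.erase m, gt N R (ln ℓ s i) ^ 2

/-- Task DIS is to be proved from CMP, UPS and LOW. -/
def S_tdis : Prop := S_cmp → S_ups → S_low → S_dis

/-- The lower bound for the basic sum. -/
def S_blow : Prop :=
  ∀ (ι : Type) [Fintype ι] [DecidableEq ι] (ℓ : ι → ℕ) (b : ι → ℝ) (ρ η N : ℝ) (n₁ R : ℕ),
    Dt ι ℓ b ρ η n₁ R → η ≤ 1 / 8 → 0 < N → N ≤ R → ρ * N / 8 ≤ BB N R ℓ b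

/-- **Task BLOW.**  See the docstring of DIS. -/
def S_tblow : Prop := S_cmp → S_low → S_blow

/-- The matrix which collapses the index `m`. -/
noncomputable def LL (k : ℕ) (m : Fin k) (ν : ℝ) : Option (Fin k) → Option (Fin k) → ℝ
  | none, none => 1
  | none, some i => if i = m then -ν else 0
  | some _, none => 0
  | some j, some i => if i = j then 1 else 0

/-- The lower form: coefficients. -/
noncomputable def hh (k : ℕ) (m : Fin k) (b : ℝ) : Option (Fin k) → ℝ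
  | none => 1
  | some j => if j = m then 0 else b * (1 - 2 * k * b)

/-- **Task LOWER.**  The lower bound for the collapsed form.

Only the `s` with `s x ≠ some m` for all `x` count.  For those
`∑ r, cc r ∏ x, LL (s x) (r x) = ∑_{a ⊆ {x | s x = none}} cc (s ∪ (a → m)) (-1) ^ |a| ν(a)
  = (-1) ^ |supp s| ∑_a yy (s ∪ (a → m)) ν(a)`, `ν x = b x / (1 - b x)`.  If `2 tl s ≤ R` and `4 ℓ(a) ≤ R`,
then `yy (s ∪ (a → m)) ≥ (1/4) ∏_{i ≠ m} gg (ln s i) * gg (ℓ a)`; all the other terms are `≥ 0`.  LOW with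
`φ n = gg N n` for `n ≤ R / 4`, `0` otherwise, and `s = supp s` gives
`|…| ≥ (1/4) ∏_{i ≠ m} gt (ln s i) * ρ ∏_{x ∈ supp s} (1 - b x) * ∑_{n ≤ R / 4} gg N n`.  And
`hh (1 - b) ^ 2 ≥ vv` (for `some j`).  Then DIS. -/
def S_lower : Prop :=
  ∀ (ι : Type) [Fintype ι] [DecidableEq ι] (ℓ : ι → ℕ) (b : ι → ℝ) (ρ η N : ℝ) (n₁ R k : ℕ)
    (m : Fin k), Dt ι ℓ b ρ η n₁ R → 64 * (k : ℝ) ^ 4 * η ≤ 1 → 0 < N → N ≤ R →
    (n₁ : ℝ) / ρ + ∑ n ∈ Finset.range (R + 1), gg N n ≤ R / (64 * k) →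
    1 / 2 * (ρ * (1 / 4 * ∑ n ∈ Finset.range (R / 4 + 1), gg N n)) ^ 2 * BB N R ℓ b ^ (k - 1) ≤
      ∑ s : ι → Option (Fin k), (∏ x, hh k m (b x) (s x)) *
        (∑ r : ι → Option (Fin k), cc N R ℓ r *
          ∏ x, LL k m (b x / (1 - b x)) (s x) (r x)) ^ 2

/-- Task LOWER is to be proved from LOW and DIS. -/
def S_tlower : Prop := S_low → S_dis → S_lower

/-- The row for a small prime. -/
noncomputable def TT (k : ℕ) (i₀ : Fin k) (ν : ℝ) : Option (Fin k) → ℝ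
  | none => 1
  | some i => (if i = i₀ then 1 else 0) - ν

/-- The coefficients for a small prime `x₀`. -/
noncomputable def pp {ι : Type} [DecidableEq ι] (k : ℕ) (b : ι → ℝ) (x₀ x : ι)
    (j : Option (Fin k)) : ℝ :=
  if x = x₀ then (if j = none then b x else 0) else HH k (b x) j

/-- The matrix for a small prime `x₀`. -/
noncomputable def MM {ι : Type} [DecidableEq ι] (k : ℕ) (b : ι → ℝ) (i₀ : Fin k) (x₀ x : ι)
    (j i : Option (Fin k)) : ℝ :=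
  if x = x₀ then TT k i₀ (b x / (1 - b x)) i else (if i = j then 1 else 0)

/-- **Task SMALL.**  The contribution of a small prime.

Only the `s` with `s x₀ = none` count.  For those, with `s(j)` the assignment `s` changed to `some j`
at `x₀` and `ν = b x₀ / (1 - b x₀) ≤ 2 b x₀`,
`∑ r, cc r ∏ x, MM (s x) (r x) = cc s + cc s(i₀) - ν ∑_j cc s(j) = ± (yy s - yy s(i₀) + ν ∑_j yy s(j))`.
With `G = ∏ gg (ln s i)`, `A = (1 - tl s / R)₊`, `A' = (1 - (tl s + ℓ) / R)₊`, `ℓ = ℓ x₀`: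
`0 ≤ yy s - yy s(i₀) = (A - A') G + A' (G - G gg (n + ℓ) / gg n) ≤ G (ℓ / R + ℓ / N) ≤ 2 ℓ G / N` (`n = ln s i₀`),
and it is `0` for `tl s > R`; for `tl s ≤ R` one has `G = ∏ gt (ln s i)`.  So the absolute value is at
most `∏ gt (ln s i) * (2 ℓ / N + 2 k b x₀)`.  Then UP. -/
def S_small : Prop :=
  ∀ (ι : Type) [Fintype ι] [DecidableEq ι] (ℓ : ι → ℕ) (b : ι → ℝ) (ρ η N : ℝ) (n₁ R k : ℕ)
    (i₀ : Fin k) (x₀ : ι), Dt ι ℓ b ρ η n₁ R → 64 * (k : ℝ) ^ 4 * η ≤ 1 → 0 < N → N ≤ R →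
    ∑ s : ι → Option (Fin k), (∏ x, pp k b x₀ x (s x)) *
        (∑ r : ι → Option (Fin k), cc N R ℓ r * ∏ x, MM k b i₀ x₀ x (s x) (r x)) ^ 2 ≤
      b x₀ * (16 * (ℓ x₀ : ℝ) ^ 2 / N ^ 2 + 16 * (k : ℝ) ^ 2 * b x₀ ^ 2) * BB N R ℓ b ^ k

/-- Task SMALL is to be proved from UP. -/
def S_tsmall : Prop := S_up → S_small

/-- **Task PW.**  The pointwise bound.

`yy r ≤ ∏ gt (ln r i)`; families of subsets as in UP, so the sum is at most the `k`-th power of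
`∑ a, gt(ℓ(a)) ∏_{x ∈ a} ([x ∈ D] + ν x)`, `ν x = b x / (1 - b x)`; expand the product over `e ⊆ a ∩ D`:
at most `2 ^ |D| sm ℓ ν gt`, and `sm ℓ ν gt ≤ 2 sm ℓ b gt` by CMP with `e = ν` (as `ν = b (1 + ν)`). -/
def S_pw : Prop :=
  ∀ (ι : Type) [Fintype ι] [DecidableEq ι] (ℓ : ι → ℕ) (b : ι → ℝ) (ρ η N : ℝ) (n₁ R k : ℕ)
    (D : Finset ι), Dt ι ℓ b ρ η n₁ R → η ≤ 1 / 8 → 0 < N → N ≤ R →
    ∑ r : ι → Option (Fin k), yy N R ℓ r *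
        ∏ x, (if r x = none then (1 : ℝ) else (if x ∈ D then 1 else 0) + b x / (1 - b x)) ≤
      ((2 : ℝ) ^ D.card * (2 * sm ℓ b (gt N R))) ^ k

/-- Task PW is to be proved from CMP. -/
def S_tpw : Prop := S_cmp → S_pw

end Pool.Agent.H542.LM
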