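import Mathlib
import Pool.Agent.H985.Chow.Typ
import Pool.Agent.H542.LM.StmA

/-!
# Maynard-Tao for the polynomials `α T ^ 2 + β` over `F_q[X]`, `q` even (helper542): statements
-/

set_option autoImplicit false

namespace Pool.Agent.H542.LM

open Polynomial
open scoped Classical
open Pool.Agent.H694.Typ (Mn PU mem_Mn)

/-- The monic irreducible polynomials `P` with `w < deg P ≤ R`. -/
noncomputable def Pr (K : Type) [Field K] [Fintype K] (w R : ℕ) : Finset K[X] :=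
  (PU K R).filter (fun P => w < P.natDegree)

/-- The polynomials of degree less than `deg P`. -/
noncomputable def Rs {K : Type} [Field K] [Fintype K] (P : K[X]) : Finset K[X] :=
  (Mn K P.natDegree).image (fun a => a - X ^ P.natDegree)

theorem mem_Rs {K : Type} [Field K] [Fintype K] {P f : K[X]} :
    f ∈ Rs P ↔ f.degree < (P.natDegree : WithBot ℕ) := by
  unfold Rs
  rw [Finset.mem_image]
  constructor
  · rintro ⟨a, ha, rfl⟩
    rw [mem_Mn] at ha
    have h1 : a.degree = ((X : K[X]) ^ P.natDegree).degree := by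
      rw [degree_X_pow, degree_eq_natDegree ha.1.ne_zero, ha.2]
    have h2 := degree_sub_lt_left h1 ha.1.ne_zero
      (by rw [ha.1.leadingCoeff, monic_X_pow P.natDegree |>.leadingCoeff])
    rwa [degree_eq_natDegree ha.1.ne_zero, ha.2] at h2
  · intro hf
    refine ⟨X ^ P.natDegree + f, ?_, by ring⟩
    rw [mem_Mn]
    refine ⟨monic_X_pow_add hf, ?_⟩
    rw [natDegree_eq_of_degree_eq_some]
    rw [degree_add_eq_left_of_degree_lt (by rwa [degree_X_pow]), degree_X_pow]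

/-- The value `α_i T ^ 2 + β_i`. -/
noncomputable def fv {K : Type} [Field K] {k : ℕ} (α β : Fin k → K[X]) (i : Fin k) (T : K[X]) :
    K[X] := α i * T ^ 2 + β i

/-- `[P ∣ f_i(T)] - 1 / (|P| - 1)`. -/
noncomputable def ph {K : Type} [Field K] [Fintype K] {k : ℕ} (α β : Fin k → K[X]) (P T : K[X]) :
    Option (Fin k) → ℝ
  | none => 1
  | some i => (if P ∣ fv α β i T then 1 else 0) - 1 / ((Fintype.card K : ℝ) ^ P.natDegree - 1)

/-- The monic `T` of degree `d` with `T ≡ v` modulo `W`. -/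
noncomputable def Tc (K : Type) [Field K] [Fintype K] (d : ℕ) (W v : K[X]) : Finset K[X] :=
  (Mn K d).filter (fun T => W ∣ T - v)

/-- The linear form in the sieve weights at `T`. -/
noncomputable def LT {K : Type} [Field K] [Fintype K] {k : ℕ} (α β : Fin k → K[X])
    (S : Finset K[X]) (c : (S → Option (Fin k)) → ℝ) (T : K[X]) : ℝ :=
  ∑ r : S → Option (Fin k), c r * ∏ x : S, ph α β (x : K[X]) T (r x)

/-- The linear form in the model: `t` is a vector of residues. -/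
noncomputable def LMo {K : Type} [Field K] [Fintype K] {k : ℕ} (α β : Fin k → K[X])
    (S : Finset K[X]) (c : (S → Option (Fin k)) → ℝ) (t : S → K[X]) : ℝ :=
  ∑ r : S → Option (Fin k), c r * ∏ x : S, ph α β (x : K[X]) (t x) (r x)

/-- `∏ (1 - 1 / |P|)` over the primes `P ∣ M`. -/
noncomputable def Ph {K : Type} [Field K] [Fintype K] (M : K[X]) : ℝ :=
  ∏ P ∈ (PU K M.natDegree).filter (fun P => P ∣ M), (1 - 1 / (Fintype.card K : ℝ) ^ P.natDegree)

/-- The product of the primes of degree at most `w`. -/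
noncomputable def Ww (K : Type) [Field K] [Fintype K] (w : ℕ) : K[X] := ∏ P ∈ PU K w, P

/-- **Task DT1.**  All the parts of `Dt` but the last one.

`a ↦ ∏ P ∈ a, P` is injective from the subsets of `Pr K w R` of length `n` to the monic polynomials of
degree `n` prime to `W = Ww K w`; the number of those is `ρ q ^ n` if `n ≥ deg W = n₁`,
`ρ = ∏ (1 - 1 / |P|)` (inclusion-exclusion over the divisors of `W`, `card_dvd` of
`H985/Chow/Typ.lean`).  `prime`: the number `π_n` of the monic irreducibles of degree `n` is at most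
`q ^ n / n`.  `sq`: `∑_{n > w} π_n q ^ (-2 n) ≤ ∑_{n > w} q ^ (-n) ≤ 2 ^ (-w)`. -/
def S_dt1 : Prop :=
  ∀ (K : Type) [Field K] [Fintype K] (w R : ℕ),
    0 < ∏ P ∈ PU K w, (1 - 1 / (Fintype.card K : ℝ) ^ P.natDegree) ∧
    ∏ P ∈ PU K w, (1 - 1 / (Fintype.card K : ℝ) ^ P.natDegree) ≤ 1 ∧
    (∀ x : Pr K w R, 1 ≤ (x : K[X]).natDegree) ∧
    (∀ x : Pr K w R, 1 / (Fintype.card K : ℝ) ^ (x : K[X]).natDegree ≤ (1 / 2) ^ w) ∧
    ∑ x : Pr K w R, (1 / (Fintype.card K : ℝ) ^ (x : K[X]).natDegree) ^ 2 ≤ (1 / 2) ^ w ∧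
    (∀ n : ℕ, (n : ℝ) * ∑ x ∈ Finset.univ.filter (fun x : Pr K w R => (x : K[X]).natDegree = n),
      1 / (Fintype.card K : ℝ) ^ (x : K[X]).natDegree ≤ 1) ∧
    (∀ n : ℕ, ∑ a ∈ Finset.univ.filter (fun a : Finset (Pr K w R) =>
      ∑ x ∈ a, (x : K[X]).natDegree = n),
        ∏ x ∈ a, 1 / (Fintype.card K : ℝ) ^ (x : K[X]).natDegree ≤ 1) ∧
    (∀ n : ℕ, (Ww K w).natDegree ≤ n → ∑ a ∈ Finset.univ.filter (fun a : Finset (Pr K w R) =>
      ∑ x ∈ a, (x : K[X]).natDegree = n),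
        ∏ x ∈ a, 1 / (Fintype.card K : ℝ) ^ (x : K[X]).natDegree ≤
          ∏ P ∈ PU K w, (1 - 1 / (Fintype.card K : ℝ) ^ P.natDegree))

/-- **Task DT2.**  The classical inequality `∑_{deg a ≤ y, (a, W) = 1} μ²(a) / φ(a) ≥ ρ (y + 1)`.

For a finite set `Q` of primes let `F(y; Q) = ∑_{a ⊆ Q, deg a ≤ y} ∏_{P ∈ a} 1 / (|P| - 1)`.  For the set
`Q = PU K R` of all the primes of degree at most `R ≥ y`:
`F(y; Q) ≥ ∑_{f monic, deg f ≤ y} 1 / |f| = y + 1`, since the `f` with the set `a` of prime factors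
contribute at most `∏_{P ∈ a} 1 / (|P| - 1)` (and nothing if `deg a > y`).  And
`F(y; Q) = F(y; Q \ P) + F(y - deg P; Q \ P) / (|P| - 1) ≤ F(y; Q \ P) / (1 - 1 / |P|)` for `P ∈ Q`; remove the
primes of degree at most `w`. -/
def S_dt2 : Prop :=
  ∀ (K : Type) [Field K] [Fintype K] (w R y : ℕ), y ≤ R →
    (∏ P ∈ PU K w, (1 - 1 / (Fintype.card K : ℝ) ^ P.natDegree)) * ((y : ℝ) + 1) ≤
      ∑ a ∈ Finset.univ.filter (fun a : Finset (Pr K w R) => ∑ x ∈ a, (x : K[X]).natDegree ≤ y),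
        ∏ x ∈ a, ((1 / (Fintype.card K : ℝ) ^ (x : K[X]).natDegree) /
          (1 - 1 / (Fintype.card K : ℝ) ^ (x : K[X]).natDegree))

/-- **Task CRT.**  Equidistribution of the monic `T` of degree `d`, `T ≡ v` modulo `W`, in the residue
classes modulo distinct primes.

The `T` with `T ≡ r` modulo `M` (`M` monic, `deg M ≤ d`) are `q ^ (d - deg M)` many.  The residues modulo
`W ∏ P` which are `≡ v` modulo `W` correspond to the vectors of residues modulo the `P ∈ S`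
(Chinese remainder theorem).  Induction on `S`. -/
def S_crt : Prop :=
  ∀ (K : Type) [Field K] [Fintype K] (d : ℕ) (W v : K[X]) (S : Finset K[X])
    (h : K[X] → K[X] → ℝ), W.Monic → (∀ P ∈ S, P.Monic ∧ Irreducible P ∧ ¬ P ∣ W) →
    (∀ P ∈ S, ∀ t u : K[X], h P (t + P * u) = h P t) →
    W.natDegree + ∑ P ∈ S, P.natDegree ≤ d →
    ∑ T ∈ Tc K d W v, ∏ P ∈ S, h P T =
      (Fintype.card K : ℝ) ^ (d - W.natDegree) *
        ∏ P ∈ S, (((Fintype.card K : ℝ) ^ P.natDegree)⁻¹ * ∑ t ∈ Rs P, h P t)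

/-- The prime number theorem for `α T ^ 2 + β` in residue classes. -/
def S_pin : Prop :=
  ∀ (K : Type) [Field K] [Fintype K] [CharP K 2], ∃ c θ : ℝ, 0 < c ∧ 0 < θ ∧ θ ≤ 1 ∧ ∃ d₀ : ℕ,
    ∀ (α β M r : K[X]) (d : ℕ), α ≠ 0 → IsCoprime α β → ¬ IsSquare (α * β) → d₀ ≤ d → M.Monic →
      IsCoprime (α * r ^ 2 + β) M →
      ((α.natDegree + β.natDegree + M.natDegree : ℕ) : ℝ) ≤ θ * d →
      |(2 * (d : ℝ) + α.natDegree) *
          (((Tc K d M r).filter (fun T => Irreducible (α * T ^ 2 + β))).card : ℝ) -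
          (Fintype.card K : ℝ) ^ (d - M.natDegree) / Ph (α * M)| ≤
        (Fintype.card K : ℝ) ^ ((1 - c) * d)

/-- The prime version of CRT. -/
def S_crtp : Prop :=
  ∀ (K : Type) [Field K] [Fintype K] [CharP K 2], ∃ c θ : ℝ, 0 < c ∧ 0 < θ ∧ θ ≤ 1 ∧ ∃ d₀ : ℕ,
    ∀ (α β W v : K[X]) (S : Finset K[X]) (h : K[X] → K[X] → ℝ) (d : ℕ), α ≠ 0 → IsCoprime α β →
      ¬ IsSquare (α * β) → d₀ ≤ d → W.Monic → IsCoprime (α * v ^ 2 + β) W →
      (∀ P ∈ S, P.Monic ∧ Irreducible P ∧ ¬ P ∣ W ∧ ¬ P ∣ α) →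
      (∀ P ∈ S, ∀ t u : K[X], h P (t + P * u) = h P t) → (∀ P ∈ S, ∀ t, |h P t| ≤ 1) →
      ((α.natDegree + β.natDegree + W.natDegree + ∑ P ∈ S, P.natDegree : ℕ) : ℝ) ≤ θ * d →
      |(2 * (d : ℝ) + α.natDegree) *
          (∑ T ∈ (Tc K d W v).filter (fun T => Irreducible (α * T ^ 2 + β)), ∏ P ∈ S, h P T) -
          (Fintype.card K : ℝ) ^ (d - W.natDegree) / Ph (α * W) *
            ∏ P ∈ S, (((Fintype.card K : ℝ) ^ P.natDegree - 1)⁻¹ *
              ∑ t ∈ (Rs P).filter (fun t => ¬ P ∣ α * t ^ 2 + β), h P t)| ≤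
        (Fintype.card K : ℝ) ^ ((∑ P ∈ S, P.natDegree : ℕ) + (1 - c) * d)

/-- **Task CRTP.**  From PIN.  Split the `T` into the classes modulo `M = W ∏_{P ∈ S} P` (those `≡ v`
modulo `W`; they correspond to the vectors of residues modulo the `P ∈ S`, `q ^ (∑ deg P)` many).  A class
with `P ∣ α t ^ 2 + β` for some `P ∈ S` contains no `T` with `α T ^ 2 + β` irreducible (its degree is
`2 d + deg α > deg P`).  The others: PIN, and `Ph (α M) = Ph (α W) ∏ (1 - 1 / |P|)`. -/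
def S_tcrtp : Prop := S_pin → S_crtp

/-- **Task MOD.**  The sum of the squares of the linear form, with periodic weights.

Expand both squares: for `r, s` with `c r ≠ 0`, `c s ≠ 0` the product over `x` has nontrivial factors only for
`x` in `supp r ∪ supp s ∪ E`, of total degree at most `2 R + deg E`.  CRT for this set; in the model
(right-hand side) the sum over `t` factorizes (`Finset.prod_univ_sum`), and the trivial factors are
`(q ^ deg P)⁻¹ ∑_{t ∈ Rs P} 1 = 1`. -/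
def S_mod : Prop :=
  ∀ (K : Type) [Field K] [Fintype K] (k d R : ℕ) (α β : Fin k → K[X]) (W v : K[X])
    (S : Finset K[X]) (E : Finset S) (ω : S → K[X] → ℝ) (c : (S → Option (Fin k)) → ℝ),
    W.Monic → (∀ P ∈ S, P.Monic ∧ Irreducible P ∧ ¬ P ∣ W) →
    (∀ (x : S) (t u : K[X]), ω x (t + (x : K[X]) * u) = ω x t) →
    (∀ x : S, x ∉ E → ∀ t, ω x t = 1) →
    (∀ r, c r ≠ 0 → tl (fun x : S => (x : K[X]).natDegree) r ≤ R) →
    W.natDegree + ∑ x ∈ E, (x : K[X]).natDegree + 2 * R ≤ d →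
    ∑ T ∈ Tc K d W v, (∏ x : S, ω x T) * LT α β S c T ^ 2 =
      (Fintype.card K : ℝ) ^ (d - W.natDegree) *
        ∑ t ∈ Fintype.piFinset (fun x : S => Rs (x : K[X])),
          (∏ x : S, (((Fintype.card K : ℝ) ^ (x : K[X]).natDegree)⁻¹ * ω x (t x))) *
            LMo α β S c t ^ 2

/-- Task MOD is to be proved from CRT. -/
def S_tmod : Prop := S_crt → S_mod

/-- The sum of the squares of the linear form over the `T` with `α_m T ^ 2 + β_m` irreducible. -/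
def S_modp : Prop :=
  ∀ (K : Type) [Field K] [Fintype K] [CharP K 2], ∃ c₁ θ : ℝ, 0 < c₁ ∧ 0 < θ ∧ θ ≤ 1 ∧ ∃ d₀ : ℕ,
    ∀ (k d R w : ℕ) (α β : Fin k → K[X]) (m : Fin k) (W v : K[X]) (S : Finset K[X])
      (c : (S → Option (Fin k)) → ℝ), k ≤ 2 ^ w → d₀ ≤ d → α m ≠ 0 → IsCoprime (α m) (β m) →
      ¬ IsSquare (α m * β m) → W.Monic → IsCoprime (fv α β m v) W →
      (∀ P ∈ S, P.Monic ∧ Irreducible P ∧ w < P.natDegree ∧ ¬ P ∣ W ∧ ¬ P ∣ α m) →
      (∀ r, c r ≠ 0 → tl (fun x : S => (x : K[X]).natDegree) r ≤ R) → (∀ r, |c r| ≤ 1) →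
      (((α m).natDegree + (β m).natDegree + W.natDegree + 2 * R : ℕ) : ℝ) ≤ θ * d →
      |(2 * (d : ℝ) + (α m).natDegree) *
          (∑ T ∈ (Tc K d W v).filter (fun T => Irreducible (fv α β m T)), LT α β S c T ^ 2) -
          (Fintype.card K : ℝ) ^ (d - W.natDegree) / Ph (α m * W) *
            ∑ t ∈ Fintype.piFinset (fun x : S => Rs (x : K[X])),
              (∏ x : S, (((Fintype.card K : ℝ) ^ (x : K[X]).natDegree - 1)⁻¹ *
                (if (x : K[X]) ∣ fv α β m (t x) then 0 else 1))) * LMo α β S c t ^ 2| ≤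
        (Fintype.card K : ℝ) ^ (6 * (R : ℝ) + 3 + (1 - c₁) * d)

/-- **Task MODP.**  From CRTP, as MOD.  `|ph| ≤ 1`.  The number of the `r` with `tl r ≤ R` is at most
`q ^ (2 R + 1)`: at most `q ^ (R + 1)` supports (products of distinct primes, monic of degree at
most `R`), and for each of them `k ^ |supp| ≤ 2 ^ (w |supp|) ≤ 2 ^ R` maps to `Fin k`.  The error for each
pair `(r, s)` is at most `q ^ (2 R + (1 - c) d)`.  The trivial factors in the model are
`(|P| - 1)⁻¹ #{t ∈ Rs P : P ∤ α_m t ^ 2 + β_m} = 1`: there is exactly one `t ∈ Rs P` with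
`P ∣ α_m t ^ 2 + β_m`, as squaring is a bijection of `K[X] / P` (characteristic two) and `P ∤ α_m`. -/
def S_tmodp : Prop := S_crtp → S_modp

/-- The local conditions at `P`. -/
def Lc {K : Type} [Field K] [Fintype K] {k : ℕ} (α β : Fin k → K[X]) (P : K[X]) : Prop :=
  P.Monic ∧ Irreducible P ∧ 2 * (k : ℝ) ≤ (Fintype.card K : ℝ) ^ P.natDegree ∧
    (∀ i, ¬ P ∣ α i) ∧ ∀ i j, i ≠ j → ¬ P ∣ α i * β j - α j * β i

/-- **Task LOC1.**  The local upper bound.

For every `i` exactly one `t_i ∈ Rs P` has `P ∣ f_i(t_i)`, and the `t_i` are distinct.  With `N = |P|`,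
`ν = 1 / (N - 1)`, `s = ∑ u_i`, `a = u_0 - ν s` the left side is `a² + 2 a s / N + (∑ u_i²) / N`, which is
`u_0² - 2 δ s u_0 + s² ν (ν - 2 / N) + (∑ u_i²) / N` with `δ = ν - 1 / N = 1 / (N (N - 1)) ≤ 2 / N²`,
`ν ≤ 2 / N`; use `- 2 δ s u_0 ≤ δ (u_0² + s²)` and `s² ≤ k ∑ u_i²`. -/
def S_loc1 : Prop :=
  ∀ (K : Type) [Field K] [Fintype K] [CharP K 2] (k : ℕ) (α β : Fin k → K[X]) (P : K[X])
    (u : Option (Fin k) → ℝ), Lc α β P →
    ∑ t ∈ Rs P, ((Fintype.card K : ℝ) ^ P.natDegree)⁻¹ * (∑ i, ph α β P t i * u i) ^ 2 ≤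
      ∑ t ∈ (Finset.univ : Finset (Option (Fin k))),
        HH k (1 / (Fintype.card K : ℝ) ^ P.natDegree) t *
          (∑ i, (if i = t then (1 : ℝ) else 0) * u i) ^ 2

/-- **Task LOC2.**  The local lower bound.

With `v_0 = u_0 - ν u_m`, `s' = ∑_{i ≠ m} u_i` the right side is
`(v_0 - ν s')² + 2 ν (v_0 - ν s') s' + ν ∑_{i ≠ m} u_i² = v_0² - ν² s'² + ν ∑_{i ≠ m} u_i²`, at least
`v_0² + ν (1 - (k - 1) ν) ∑_{i ≠ m} u_i²`, and `ν (1 - (k - 1) ν) ≥ b (1 - 2 k b)` for `b = 1 / N`,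
`ν = b / (1 - b)`. -/
def S_loc2 : Prop :=
  ∀ (K : Type) [Field K] [Fintype K] [CharP K 2] (k : ℕ) (α β : Fin k → K[X]) (P : K[X])
    (m : Fin k) (u : Option (Fin k) → ℝ), Lc α β P →
    ∑ j ∈ (Finset.univ : Finset (Option (Fin k))),
        hh k m (1 / (Fintype.card K : ℝ) ^ P.natDegree) j *
          (∑ i, LL k m ((1 / (Fintype.card K : ℝ) ^ P.natDegree) /
            (1 - 1 / (Fintype.card K : ℝ) ^ P.natDegree)) j i * u i) ^ 2 ≤
      ∑ t ∈ Rs P, (((Fintype.card K : ℝ) ^ P.natDegree - 1)⁻¹ *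
        (if P ∣ fv α β m t then 0 else 1)) * (∑ i, ph α β P t i * u i) ^ 2

/-- **Task LOC3.**  The local form for `P ∣ f_{i₀}(T)` (an equality: only `t = t_{i₀}` counts, and for it
`ph P t i = TT i`). -/
def S_loc3 : Prop :=
  ∀ (K : Type) [Field K] [Fintype K] [CharP K 2] (k : ℕ) (α β : Fin k → K[X]) (P : K[X])
    (i₀ : Fin k) (u : Option (Fin k) → ℝ), Lc α β P →
    ∑ t ∈ Rs P, (((Fintype.card K : ℝ) ^ P.natDegree)⁻¹ *
        (if P ∣ fv α β i₀ t then 1 else 0)) * (∑ i, ph α β P t i * u i) ^ 2 ≤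
      ∑ j ∈ (Finset.univ : Finset (Option (Fin k))),
        (if j = none then 1 / (Fintype.card K : ℝ) ^ P.natDegree else 0) *
          (∑ i, TT k i₀ ((1 / (Fintype.card K : ℝ) ^ P.natDegree) /
            (1 - 1 / (Fintype.card K : ℝ) ^ P.natDegree)) i * u i) ^ 2

/-- The polynomials `α_i T ^ 2 + β_i` of the theorem: an admissible tuple. -/
def Tup {K : Type} [Field K] {k : ℕ} (α β : Fin k → K[X]) : Prop :=
  (∀ i, α i ≠ 0 ∧ IsCoprime (α i) (β i) ∧ ¬ IsSquare (α i * β i)) ∧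
    (∀ i j, i ≠ j → α i * β j ≠ α j * β i) ∧
    ∀ P : K[X], P.Monic → Irreducible P → ∃ x : K[X], ∀ i, ¬ P ∣ fv α β i x

/-- **The theorem.** -/
def S_main : Prop :=
  ∀ (K : Type) [Field K] [Fintype K] [CharP K 2] (m : ℕ), ∃ k₀ : ℕ, ∀ k : ℕ, k₀ ≤ k →
    ∀ α β : Fin k → K[X], Tup α β → ∃ c κ : ℝ, 0 < c ∧ 0 < κ ∧ ∃ d₀ : ℕ, ∀ d : ℕ, d₀ ≤ d →
      c * (Fintype.card K : ℝ) ^ d / (d : ℝ) ^ k ≤
        (((Mn K d).filter (fun T =>
          (∀ i, ∀ P : K[X], Irreducible P → P ∣ fv α β i T → κ * d ≤ P.natDegree) ∧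
            m ≤ (Finset.univ.filter (fun i => Irreducible (fv α β i T))).card)).card : ℝ)

end Pool.Agent.H542.LM
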