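import Mathlib
import Pool.Agent.H542.LM.StmP

/-!
# Maynard-Tao for the polynomials `α T ^ 2 + β` over `F_q[X]`, `q` even (helper542): the assembly
-/

set_option autoImplicit false

namespace Pool.Agent.H542.LM

open Polynomial
open scoped Classical
open Pool.Agent.H694.Typ (Mn PU mem_Mn)

/-- The lengths. -/
noncomputable def le (K : Type) [Field K] [Fintype K] (w R : ℕ) (x : Pr K w R) : ℕ :=
  (x : K[X]).natDegree

/-- The densities. -/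
noncomputable def be (K : Type) [Field K] [Fintype K] (w R : ℕ) (x : Pr K w R) : ℝ :=
  1 / (Fintype.card K : ℝ) ^ (x : K[X]).natDegree

/-- The density of the polynomials prime to `W`. -/
noncomputable def ro (K : Type) [Field K] [Fintype K] (w : ℕ) : ℝ :=
  ∏ P ∈ PU K w, (1 - 1 / (Fintype.card K : ℝ) ^ P.natDegree)

/-- **Task DAT.**  The data of the polynomials (from `S_dt1`, `S_dt2`). -/
def S_dat : Prop :=
  ∀ (K : Type) [Field K] [Fintype K] (w R : ℕ),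
    Dt (Pr K w R) (le K w R) (be K w R) (ro K w) ((1 / 2) ^ w) (Ww K w).natDegree R

def S_tdat : Prop := S_dt1 → S_dt2 → S_dat

/-- The basic sum for the polynomials. -/
noncomputable def Bp (K : Type) [Field K] [Fintype K] (w R : ℕ) (N : ℝ) : ℝ :=
  BB N R (le K w R) (be K w R)

/-- The linear form for the polynomials. -/
noncomputable def Lp {K : Type} [Field K] [Fintype K] {k : ℕ} (α β : Fin k → K[X]) (w R : ℕ) (N : ℝ)
    (T : K[X]) : ℝ :=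
  LT α β (Pr K w R) (cc N R (le K w R)) T

/-- **Task E1.**  `S_mod` with `E = ∅`, `ω = 1` (`cc r ≠ 0` implies `tl r ≤ R`), `S_tens` with `S_loc1`
(`Ω₂ = univ`, `p₂ x t = HH k (b x) t`, `φ₂ x t i = if i = t then 1 else 0`), then
`∑ r, cc r ∏ x, (if r x = s x then 1 else 0) = cc s`, `cc s ^ 2 = yy s ^ 2 ≤ ∏ i, gt N R (ln s i) ^ 2`, and
`S_up`. -/
def S_e1 : Prop :=
  ∀ (K : Type) [Field K] [Fintype K] [CharP K 2] (k w R d : ℕ) (N : ℝ) (α β : Fin k → K[X])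
    (v : K[X]), (∀ P ∈ Pr K w R, Lc α β P) → 1 ≤ k → 64 * (k : ℝ) ^ 4 * (1 / 2) ^ w ≤ 1 → 0 < N →
    N ≤ R → (Ww K w).natDegree + 2 * R ≤ d →
    ∑ T ∈ Tc K d (Ww K w) v, Lp α β w R N T ^ 2 ≤
      2 * (Fintype.card K : ℝ) ^ (d - (Ww K w).natDegree) * Bp K w R N ^ k

def S_te1 : Prop := S_dat → S_mod → S_tens → S_loc1 → S_up → S_e1

/-- **Task E2.**  The model sum in `S_modp` for `S = Pr K w R`, `c = cc N R ℓ`: `S_tens` with `S_loc2` and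
`S_lower`. -/
def S_e2 : Prop :=
  ∀ (K : Type) [Field K] [Fintype K] [CharP K 2] (k w R : ℕ) (N : ℝ) (α β : Fin k → K[X])
    (m : Fin k), (∀ P ∈ Pr K w R, Lc α β P) → 64 * (k : ℝ) ^ 4 * (1 / 2) ^ w ≤ 1 → 0 < N →
    N ≤ R → ((Ww K w).natDegree : ℝ) / ro K w + ∑ n ∈ Finset.range (R + 1), gg N n ≤
      R / (64 * k) →
    1 / 2 * (ro K w * (1 / 4 * ∑ n ∈ Finset.range (R / 4 + 1), gg N n)) ^ 2 *
        Bp K w R N ^ (k - 1) ≤
      ∑ t ∈ Fintype.piFinset (fun x : Pr K w R => Rs (x : K[X])),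
        (∏ x : Pr K w R, (((Fintype.card K : ℝ) ^ (x : K[X]).natDegree - 1)⁻¹ *
          (if (x : K[X]) ∣ fv α β m (t x) then 0 else 1))) *
          LMo α β (Pr K w R) (cc N R (le K w R)) t ^ 2

def S_te2 : Prop := S_dat → S_tens → S_loc2 → S_lower → S_e2

/-- **Task E3.**  `S_mod` with `E = {x₀}`, `ω x₀ T = [x₀ ∣ f_{i₀}(T)]`, `ω x = 1` for `x ≠ x₀`; `S_tens` with
`S_loc3` at `x₀`, `S_loc1` at the other `x` (`Ω₂ = univ`, `p₂ x j = pp k b x₀ x j`,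
`φ₂ x j i = MM k b i₀ x₀ x j i`), and `S_small`. -/
def S_e3 : Prop :=
  ∀ (K : Type) [Field K] [Fintype K] [CharP K 2] (k w R d : ℕ) (N : ℝ) (α β : Fin k → K[X])
    (v : K[X]) (i₀ : Fin k) (x₀ : Pr K w R), (∀ P ∈ Pr K w R, Lc α β P) →
    64 * (k : ℝ) ^ 4 * (1 / 2) ^ w ≤ 1 → 0 < N → N ≤ R →
    (Ww K w).natDegree + (x₀ : K[X]).natDegree + 2 * R ≤ d →
    ∑ T ∈ (Tc K d (Ww K w) v).filter (fun T => (x₀ : K[X]) ∣ fv α β i₀ T), Lp α β w R N T ^ 2 ≤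
      (Fintype.card K : ℝ) ^ (d - (Ww K w).natDegree) * (be K w R x₀ *
        (16 * (le K w R x₀ : ℝ) ^ 2 / N ^ 2 + 16 * (k : ℝ) ^ 2 * be K w R x₀ ^ 2) *
          Bp K w R N ^ k)

def S_te3 : Prop := S_dat → S_mod → S_tens → S_loc1 → S_loc3 → S_small → S_e3

/-- **Task E4.**  `|LT| ≤ ∑ r, |cc r| ∏ x, |ph x T (r x)|`, `|cc r| = yy r`,
`|ph P T (some i)| ≤ [P ∣ f_i(T)] + 1 / (|P| - 1)`, `1 / (|P| - 1) = b / (1 - b)` for `b = 1 / |P|`; `S_pw`. -/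
def S_e4 : Prop :=
  ∀ (K : Type) [Field K] [Fintype K] (k w R : ℕ) (N : ℝ) (α β : Fin k → K[X]) (T : K[X]),
    (1 / 2 : ℝ) ^ w ≤ 1 / 8 → 0 < N → N ≤ R →
    |Lp α β w R N T| ≤
      ((2 : ℝ) ^ (Finset.univ.filter (fun x : Pr K w R => ∃ i, (x : K[X]) ∣ fv α β i T)).card *
        (2 * sm (le K w R) (be K w R) (gt N R))) ^ k

def S_te4 : Prop := S_dat → S_pw → S_e4

/-- The parameters. -/
def S_par : Prop :=
  ∀ (θ Λ : ℝ), 0 < θ → θ ≤ 1 → 0 < Λ → ∃ k₀ : ℕ, 1 ≤ k₀ ∧ ∀ k : ℕ, k₀ ≤ k → ∃ lam : ℝ, 4 ≤ lam ∧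
    ∀ C : ℝ, ∃ R₀ : ℕ, ∀ R : ℕ, R₀ ≤ R →
      C + ∑ n ∈ Finset.range (R + 1), gg ((R : ℝ) / lam) n ≤ R / (64 * k) ∧
      Λ * (R : ℝ) * (R / lam) ≤
        k * θ * (∑ n ∈ Finset.range (R / 4 + 1), gg ((R : ℝ) / lam) n) ^ 2

/-- **Task PAR.**  `lam = 2000 k log k`, `N = R / lam`.  With `gg N n = N / (N + n)`:
`∑_{n ≤ R} gg N n ≤ 1 + N log (1 + R / N) = 1 + (R / lam) log (1 + lam)`, and `lam / log (1 + lam) ≥ 128 k` for
`k ≥ 3`; `∑_{n ≤ R / 4} gg N n ≥ N log (1 + R / (4 N)) ≥ (R / lam) log (lam / 4)` (there are `⌊R / 4⌋ + 1 ≥ R / 4`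
terms), and `log (lam / 4) ≥ log k`.  So the second inequality holds if
`Λ ≤ k θ (log k)² / lam = θ log k / 2000`. -/
def S_tpar : Prop := S_par

end Pool.Agent.H542.LM
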